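import Pool.Agent.H34.FQ.Targets

/-!
# MP_63b6b1_nt: the lower bound for the number of local zeros (row LO1 of hfq_modules)
-/

set_option autoImplicit false

open Finset Pool.Agent.H32.RQ Pool.Agent.H34.FQ

namespace Pool.Agent.H40.HFQ

theorem mv_eq {s : ℕ} (T : Matrix (Fin s) (Fin s) ℤ) (x : Fin s → ℤ) : mv T x = T.mulVec x := by
  funext i
  simp [mv, Matrix.mulVec, dotProduct]

theorem mv_left {s : ℕ} {T Ti : Matrix (Fin s) (Fin s) ℤ} (h : Ti * T = 1) (x : Fin s → ℤ) :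
    mv Ti (mv T x) = x := by
  rw [mv_eq, mv_eq, Matrix.mulVec_mulVec, h, Matrix.one_mulVec]

theorem mv_inj {s : ℕ} {T Ti : Matrix (Fin s) (Fin s) ℤ} (h : Ti * T = 1) {x y : Fin s → ℤ}
    (hxy : mv T x = mv T y) : x = y := by
  rw [← mv_left h x, hxy, mv_left h y]

theorem Prm_mv {s : ℕ} {T Ti : Matrix (Fin s) (Fin s) ℤ} (h : Ti * T = 1) {e : Fin s → ℤ}
    (he : Prm e) : Prm (mv T e) := by
  obtain ⟨a, ha⟩ := he
  refine ⟨fun j => ∑ i, a i * Ti i j, ?_⟩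
  have h1 : ∀ i, e i = ∑ j, Ti i j * mv T e j := by
    intro i
    have h2 := congrFun (mv_left h e) i
    rw [← h2]
    simp [mv]
  calc ∑ j, (∑ i, a i * Ti i j) * mv T e j = ∑ j, ∑ i, a i * (Ti i j * mv T e j) := by
        refine Finset.sum_congr rfl fun j _ => ?_
        rw [Finset.sum_mul]
        exact Finset.sum_congr rfl fun i _ => by ring
    _ = ∑ i, ∑ j, a i * (Ti i j * mv T e j) := Finset.sum_comm
    _ = ∑ i, a i * e i := by
        refine Finset.sum_congr rfl fun i _ => ?_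
        rw [← Finset.mul_sum, ← h1 i]
    _ = 1 := ha

theorem mem_vb {s B : ℕ} {x : Fin s → ℤ} : x ∈ vb s B ↔ ∀ i, |x i| ≤ (B : ℤ) := by
  unfold vb
  rw [Fintype.mem_piFinset]
  simp only [Finset.mem_Icc, abs_le]

theorem card_vb (s B : ℕ) : (vb s B).card = (2 * B + 1) ^ s := by
  unfold vb
  rw [Fintype.card_piFinset, Finset.prod_const, Finset.card_univ, Fintype.card_fin, Int.card_Icc]
  congr 1
  omega

theorem mv_bd {s : ℕ} (T : Matrix (Fin s) (Fin s) ℤ) : ∃ K₁ : ℕ, ∀ (B : ℕ) (e : Fin s → ℤ),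
    e ∈ vb s B → mv T e ∈ vb s (K₁ * B) := by
  refine ⟨∑ i, ∑ j, (T i j).natAbs, fun B e he => ?_⟩
  rw [mem_vb] at he ⊢
  intro i
  have h1 : |mv T e i| ≤ ∑ j, |T i j| * (B : ℤ) := by
    have h2 : mv T e i = ∑ j, T i j * e j := by simp [mv]
    rw [h2]
    refine (Finset.abs_sum_le_sum_abs _ _).trans (Finset.sum_le_sum fun j _ => ?_)
    rw [abs_mul]
    exact mul_le_mul_of_nonneg_left (he j) (abs_nonneg _)
  refine h1.trans ?_
  rw [← Finset.sum_mul]
  push_cast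
  refine mul_le_mul_of_nonneg_right ?_ (by positivity)
  exact Finset.single_le_sum (f := fun i => ∑ j, |T i j|)
    (fun i _ => Finset.sum_nonneg fun j _ => abs_nonneg _) (Finset.mem_univ i)

theorem log_bound (k : ℕ) {κ : ℝ} (hκ : 0 < κ) : ∃ X₁ : ℕ, ∀ X : ℕ, X₁ ≤ X →
    Real.log X ^ k ≤ κ * X := by
  have h1 := (Real.isLittleO_pow_log_id_atTop (n := k)).def hκ
  have h2 := tendsto_natCast_atTop_atTop (R := ℝ) |>.eventually h1
  obtain ⟨X₁, hX₁⟩ := h2.exists_forall_of_atTop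
  refine ⟨X₁, fun X hX => ?_⟩
  have h3 := hX₁ X hX
  simp only [id, Real.norm_eq_abs] at h3
  rw [abs_of_nonneg (Nat.cast_nonneg X : (0 : ℝ) ≤ (X : ℝ))] at h3
  exact (le_abs_self _).trans h3

theorem pf_LO1 (hLO0 : T_LO0) (hLOI : T_LOI) (hCHE : T_CHE) (hRZE : T_RZE) (hBDI : T_BDI) :
    T_LO1 := by
  classical
  intro n F N m0 V ρ η hn hV hρ hη
  obtain ⟨c₂, C₂, hc₂, hC₂, hlo⟩ := hLO0 n F N V ρ hn hV hρ
  obtain ⟨K, hK⟩ := hLOI n F N m0 (V + 2) (by linarith)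
  obtain ⟨c, Cc, hc, hCc, hche⟩ := hCHE
  obtain ⟨M, hM⟩ : ∃ M : ℝ, M = 16 * ((m0 : ℝ) + 1) ^ 2 * C₂ := ⟨_, rfl⟩
  have hM0 : 0 < M := by
    rw [hM]
    positivity
  refine ⟨K, min (M * c₂) (c * c₂ * η / (4 * M)), lt_min (by positivity) (by positivity), ?_⟩
  intro W δ hW hδ hδ3
  have hW0 : (0 : ℝ) < W := by exact_mod_cast hW
  obtain ⟨h, hh⟩ : ∃ h : ℝ, h = δ / M := ⟨_, rfl⟩
  have hh0 : 0 < h := by
    rw [hh]
    positivity
  have hhc : h ≤ c₂ := by
    rw [hh, div_le_iff₀ hM0]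
    exact (hδ3.trans (min_le_left _ _)).trans (le_of_eq (mul_comm _ _))
  have hδh : δ = h * M := by
    rw [hh]
    field_simp
  obtain ⟨a, ha⟩ : ∃ a : ℝ, a = c₂ * h * η / W := ⟨_, rfl⟩
  have ha0 : 0 < a := by
    rw [ha]
    positivity
  obtain ⟨K', hK'⟩ := exists_nat_ge (4 * (m0 : ℝ) * (V + 2))
  obtain ⟨X1, hX1⟩ := hRZE n N.r K' (a / 4) (by omega) N.nd (by positivity)
  obtain ⟨K₁, hK₁⟩ := mv_bd N.T
  have hmu : 1 ≤ N.mu.natAbs := Int.natAbs_pos.2 N.mu0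
  have hRm : ∀ m : ℕ, 1 ≤ m → 1 ≤ Rm N m W := by
    intro m hm
    unfold Rm
    exact Nat.mul_pos (Nat.pow_pos (Nat.mul_pos hmu hm)) hW
  have hlo' : ∀ m : ℕ, ∃ X₀ : ℕ, 1 ≤ m → ∀ (X A l : ℕ) (f : Mon (n + 2) → ℤ), X₀ ≤ X → 1 ≤ A →
      f ∈ b1 (n + 2) A → RBN N ρ V A f → l.Prime → X < l → l ≤ 4 * X →
      (VL N m (Rm N m W) l f (V + 2) (C₂ * h * A)).Finite ∧
      c₂ * h * (X : ℝ) ^ (n - 1) * (UU N m (Rm N m W) f).card / ((Rm N m W : ℕ) : ℝ) ^ n ≤
        ((VL N m (Rm N m W) l f (V + 2) (C₂ * h * A)).ncard : ℝ) := by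
    intro m
    by_cases hm : 1 ≤ m
    · obtain ⟨X₀, hX₀⟩ := hlo h m (Rm N m W) hh0 hhc hm (hRm m hm)
      exact ⟨X₀, fun _ => hX₀⟩
    · exact ⟨0, fun hm' => absurd hm' hm⟩
  choose Xf hXf using hlo'
  obtain ⟨Γ, hΓ⟩ : ∃ Γ : ℝ, Γ = ((n : ℝ) + 2) * (2 * ((K₁ : ℝ) * K) ^ 2 * 9 ^ (n + 1)) :=
    ⟨_, rfl⟩
  have hΓ0 : 0 ≤ Γ := by
    rw [hΓ]
    positivity
  obtain ⟨X2, hX2⟩ := log_bound (3 * (n + 1) + 1) (κ := c * a / 4 / (Γ + 1)) (by positivity)
  obtain ⟨X3, hX3⟩ := exists_nat_ge ((2 * (K' : ℝ) + 1) ^ n / (a / 4))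
  refine ⟨max (max X1 X2) (max (max X3 3) (∑ m ∈ range (m0 + 1), (Xf m + Rm N m W))), ?_⟩
  intro X D A f hX hD hA hf hRB hU
  obtain ⟨m, hm1, hm0, hUm⟩ := hU
  have x1 : X1 ≤ X := (le_max_left _ _).trans ((le_max_left _ _).trans hX)
  have x2 : X2 ≤ X := (le_max_right _ _).trans ((le_max_left _ _).trans hX)
  have x3 : X3 ≤ X := (le_max_left _ _).trans ((le_max_left _ _).trans ((le_max_right _ _).trans hX))
  have x4 : 3 ≤ X := (le_max_right _ _).trans ((le_max_left _ _).trans ((le_max_right _ _).trans hX))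
  have x5 : ∑ m ∈ range (m0 + 1), (Xf m + Rm N m W) ≤ X :=
    (le_max_right _ _).trans ((le_max_right _ _).trans hX)
  have x6 : Xf m + Rm N m W ≤ X :=
    (Finset.single_le_sum (f := fun m => Xf m + Rm N m W) (fun _ _ => Nat.zero_le _)
      (Finset.mem_range.2 (by omega))).trans x5
  have hX0 : (0 : ℝ) < X := by
    have : 0 < X := by omega
    exact_mod_cast this
  have hX1r : (1 : ℝ) ≤ X := by
    have : 1 ≤ X := by omega
    exact_mod_cast this
  have hlog : 0 < Real.log X := Real.log_pos (by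
    have : 1 < X := by omega
    exact_mod_cast this)
  have hA0 : (0 : ℝ) < A := by exact_mod_cast hA
  obtain ⟨P, hP⟩ : ∃ P : Finset ℕ, P = (Finset.Ioc X (4 * X)).filter Nat.Prime := ⟨_, rfl⟩
  have hPmem : ∀ l ∈ P, l.Prime ∧ X < l ∧ l ≤ 4 * X := by
    intro l hl
    rw [hP, Finset.mem_filter, Finset.mem_Ioc] at hl
    exact ⟨hl.2, hl.1.1, hl.1.2⟩
  have hPc : c * X / Real.log X ≤ (P.card : ℝ) := by
    rw [hP]
    exact (hche X (by omega)).1
  obtain ⟨R, hR⟩ : ∃ R : ℕ, R = Rm N m W := ⟨_, rfl⟩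
  have hR1 : 1 ≤ R := by
    rw [hR]
    exact hRm m hm1
  have hR0 : (0 : ℝ) < R := by exact_mod_cast hR1
  rw [← hR] at hUm x6
  have hm0r : (m : ℝ) ≤ m0 := by exact_mod_cast hm0
  have hm1r : (1 : ℝ) ≤ m := by exact_mod_cast hm1
  obtain ⟨H, hH⟩ : ∃ H : ℝ, H = C₂ * h * A := ⟨_, rfl⟩
  -- the vectors for one prime
  have hY : ∀ l ∈ P, ∃ Y : Finset (Fin n → ℤ), (∀ v ∈ Y, v ∈ VL N m R l f (V + 2) H ∧
      qf N.r v ≠ 0 ∧ ¬ ∀ i, (l : ℤ) ∣ v i) ∧ a / 2 * (X : ℝ) ^ (n - 1) ≤ (Y.card : ℝ) := by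
    intro l hl
    obtain ⟨hl1, hl2, hl3⟩ := hPmem l hl
    have hl3r : (l : ℝ) ≤ 4 * X := by exact_mod_cast hl3
    have hl0 : (0 : ℝ) < l := by exact_mod_cast hl1.pos
    have h1 := hXf m hm1 X A l f (by omega) hA hf hRB hl1 hl2 hl3
    rw [← hR, ← hH] at h1
    obtain ⟨hfin, hnc⟩ := h1
    obtain ⟨Z, hZ⟩ : ∃ Z : Finset (Fin n → ℤ), Z = hfin.toFinset := ⟨_, rfl⟩
    have hZmem : ∀ v, v ∈ Z ↔ v ∈ VL N m R l f (V + 2) H := by
      intro v
      rw [hZ]
      exact Set.Finite.mem_toFinset _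
    have hZc : a * (X : ℝ) ^ (n - 1) ≤ (Z.card : ℝ) := by
      rw [Set.ncard_eq_toFinset_card _ hfin, ← hZ] at hnc
      refine le_trans ?_ hnc
      have h2 : η / W ≤ ((UU N m R f).card : ℝ) / (R : ℝ) ^ n := by
        rw [le_div_iff₀ (by positivity)]
        refine le_trans (le_of_eq ?_) hUm
        ring
      calc a * (X : ℝ) ^ (n - 1) = c₂ * h * (X : ℝ) ^ (n - 1) * (η / W) := by
            rw [ha]
            ring
        _ ≤ c₂ * h * (X : ℝ) ^ (n - 1) * (((UU N m R f).card : ℝ) / (R : ℝ) ^ n) :=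
            mul_le_mul_of_nonneg_left h2 (by positivity)
        _ = c₂ * h * (X : ℝ) ^ (n - 1) * (UU N m R f).card / (R : ℝ) ^ n := by ring
    have hbd : ∀ v ∈ Z, ∀ i, |(v i : ℝ)| ≤ m * l * (V + 2) := by
      intro v hv
      rw [hZmem] at hv
      exact hv.2.2.1
    have hV2 : 0 < V + 2 := by linarith
    -- zeros of r
    have hz1 : ((Z.filter fun v => qf N.r v = 0).card : ℝ) ≤ a / 4 * (X : ℝ) ^ (n - 1) := by
      refine le_trans ?_ (hX1 X x1)
      refine Nat.cast_le.2 (Finset.card_le_card ?_)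
      intro v hv
      rw [Finset.mem_filter] at hv ⊢
      refine ⟨?_, hv.2⟩
      rw [mem_vb]
      intro i
      have h2 := hbd v hv.1 i
      have h3 : (m : ℝ) * l * (V + 2) ≤ K' * X := by
        calc (m : ℝ) * l * (V + 2) ≤ m0 * (4 * X) * (V + 2) := by gcongr
          _ = 4 * (m0 : ℝ) * (V + 2) * X := by ring
          _ ≤ K' * X := mul_le_mul_of_nonneg_right hK' hX0.le
      have h4 := h2.trans h3
      exact_mod_cast h4
    -- divisible by l
    have hz2 : ((Z.filter fun v => ∀ i, (l : ℤ) ∣ v i).card : ℝ) ≤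
        a / 4 * (X : ℝ) ^ (n - 1) := by
      have h2 : (Z.filter fun v => ∀ i, (l : ℤ) ∣ v i).card ≤ (2 * K' + 1) ^ n := by
        rw [← card_vb]
        refine (Finset.card_le_card ?_).trans
          (Finset.card_image_le (f := fun (w : Fin n → ℤ) (i : Fin n) => (l : ℤ) * w i))
        intro v hv
        rw [Finset.mem_filter] at hv
        choose w hw using hv.2
        rw [Finset.mem_image]
        refine ⟨w, ?_, funext fun i => (hw i).symm⟩
        rw [mem_vb]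
        intro i
        have h3 := hbd v hv.1 i
        rw [hw i] at h3
        push_cast at h3
        rw [abs_mul, abs_of_pos hl0] at h3
        have h4 : (l : ℝ) * |(w i : ℝ)| ≤ l * K' := by
          calc (l : ℝ) * |(w i : ℝ)| ≤ m * l * (V + 2) := h3
            _ ≤ m0 * l * (V + 2) := by gcongr
            _ ≤ 4 * (m0 * l * (V + 2)) := by
                have : 0 ≤ (m0 : ℝ) * l * (V + 2) := by positivity
                linarith
            _ = l * (4 * (m0 : ℝ) * (V + 2)) := by ring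
            _ ≤ l * K' := mul_le_mul_of_nonneg_left hK' hl0.le
        have h5 := le_of_mul_le_mul_left h4 hl0
        exact_mod_cast h5
      have h3 : ((Z.filter fun v => ∀ i, (l : ℤ) ∣ v i).card : ℝ) ≤ (2 * (K' : ℝ) + 1) ^ n := by
        exact_mod_cast h2
      refine h3.trans ?_
      have h4 : (2 * (K' : ℝ) + 1) ^ n ≤ X3 * (a / 4) := by
        rwa [div_le_iff₀ (by positivity)] at hX3
      have h5 : (X3 : ℝ) ≤ X := by exact_mod_cast x3
      have h6 : (X : ℝ) ≤ (X : ℝ) ^ (n - 1) := le_self_pow₀ hX1r (by omega)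
      calc (2 * (K' : ℝ) + 1) ^ n ≤ X3 * (a / 4) := h4
        _ ≤ (X : ℝ) ^ (n - 1) * (a / 4) :=
            mul_le_mul_of_nonneg_right (h5.trans h6) (by positivity)
        _ = a / 4 * (X : ℝ) ^ (n - 1) := mul_comm _ _
    refine ⟨Z.filter fun v => qf N.r v ≠ 0 ∧ ¬ ∀ i, (l : ℤ) ∣ v i, ?_, ?_⟩
    · intro v hv
      rw [Finset.mem_filter, hZmem] at hv
      exact hv
    · have h2 : Z.card ≤ (Z.filter fun v => qf N.r v ≠ 0 ∧ ¬ ∀ i, (l : ℤ) ∣ v i).card +
          ((Z.filter fun v => qf N.r v = 0).card + (Z.filter fun v => ∀ i, (l : ℤ) ∣ v i).card) := by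
        refine (Finset.card_le_card ?_).trans ((Finset.card_union_le _ _).trans
          (Nat.add_le_add_left (Finset.card_union_le _ _) _))
        intro v hv
        rw [Finset.mem_union, Finset.mem_union, Finset.mem_filter, Finset.mem_filter,
          Finset.mem_filter]
        by_cases h3 : qf N.r v = 0
        · exact Or.inr (Or.inl ⟨hv, h3⟩)
        · by_cases h4 : ∀ i, (l : ℤ) ∣ v i
          · exact Or.inr (Or.inr ⟨hv, h4⟩)
          · exact Or.inl ⟨hv, h3, h4⟩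
      have h3 : (Z.card : ℝ) ≤ ((Z.filter fun v => qf N.r v ≠ 0 ∧
          ¬ ∀ i, (l : ℤ) ∣ v i).card : ℝ) + (((Z.filter fun v => qf N.r v = 0).card : ℝ) +
          ((Z.filter fun v => ∀ i, (l : ℤ) ∣ v i).card : ℝ)) := by exact_mod_cast h2
      linarith
  choose! Y hYm hYc using hY
  -- the points
  have he : ∀ l ∈ P, ∀ v ∈ Y l, ∃ e ∈ EX N m0 K X, e 0 = (m : ℤ) * l ∧ vt e = v ∧ Prm e ∧
      (W : ℤ) ∣ qf f (mv N.T e) ∧
      |((qf f (mv N.T e) : ℤ) : ℝ)| ≤ δ * A * (X : ℝ) ^ 2 := by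
    intro l hl v hv
    obtain ⟨hl1, hl2, hl3⟩ := hPmem l hl
    obtain ⟨h1, h2, h3⟩ := hYm l hl v hv
    have hnd : ¬ l ∣ Rm N m W := by
      rw [← hR]
      intro hd
      have := Nat.le_of_dvd (by omega) hd
      omega
    rw [hR] at h1
    obtain ⟨e, he1, he2, he3, he4, he5, he6⟩ := hK m W l X f v H hm1 hm0 hW hl1 hl2 hl3 hnd h1 h2 h3
    refine ⟨e, he1, he2, he3, he4, he5, he6.trans ?_⟩
    have hl3r : (l : ℝ) ≤ 4 * X := by exact_mod_cast hl3
    calc ((m : ℝ) * l) ^ 2 * H ≤ (((m0 : ℝ) + 1) * (4 * X)) ^ 2 * H := by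
          have hH0 : 0 ≤ H := by
            rw [hH]
            positivity
          refine mul_le_mul_of_nonneg_right ?_ hH0
          refine pow_le_pow_left₀ (by positivity) ?_ 2
          exact mul_le_mul (by linarith) hl3r (by positivity) (by positivity)
      _ = δ * A * (X : ℝ) ^ 2 := by
          rw [hδh, hM, hH]
          ring
  choose! e he1 he2 he3 he4 he5 he6 using he
  obtain ⟨G, hG⟩ : ∃ G : Finset (Fin (n + 2) → ℤ), G = (SX N m0 K D X).filter fun x =>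
    (W : ℤ) ∣ qf f x ∧ |((qf f x : ℤ) : ℝ)| ≤ δ * A * (X : ℝ) ^ 2 := ⟨_, rfl⟩
  obtain ⟨B, hB⟩ : ∃ B : Finset (Fin (n + 2) → ℤ), B = (vb (n + 2) (K₁ * (K * X))).filter fun x =>
    ¬ Iso D x := ⟨_, rfl⟩
  have hcard : (P.sigma Y).card ≤ G.card + B.card := by
    refine le_trans ?_ (Finset.card_union_le G B)
    refine Finset.card_le_card_of_injOn (fun q => mv N.T (e q.1 q.2)) ?_ ?_
    · intro q hq
      rw [Finset.mem_coe, Finset.mem_sigma] at hq
      obtain ⟨hq1, hq2⟩ := hq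
      rw [Finset.mem_coe, Finset.mem_union]
      have hEX := he1 q.1 hq1 q.2 hq2
      by_cases hI : Iso D (mv N.T (e q.1 q.2))
      · left
        rw [hG, Finset.mem_filter]
        refine ⟨?_, he5 q.1 hq1 q.2 hq2, he6 q.1 hq1 q.2 hq2⟩
        unfold SX
        rw [Finset.mem_filter]
        exact ⟨Finset.mem_image_of_mem _ hEX, Prm_mv N.h2 (he4 q.1 hq1 q.2 hq2), hI⟩
      · right
        rw [hB, Finset.mem_filter]
        refine ⟨hK₁ _ _ ?_, hI⟩
        unfold EX at hEX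
        rw [Finset.mem_filter] at hEX
        exact hEX.1
    · intro q hq q' hq' heq
      rw [Finset.mem_coe, Finset.mem_sigma] at hq hq'
      have h1 : e q.1 q.2 = e q'.1 q'.2 := mv_inj N.h2 heq
      have h2 := he2 q.1 hq.1 q.2 hq.2
      have h3 := he2 q'.1 hq'.1 q'.2 hq'.2
      have h4 := he3 q.1 hq.1 q.2 hq.2
      have h5 := he3 q'.1 hq'.1 q'.2 hq'.2
      rw [h1, h3] at h2
      rw [h1, h5] at h4
      have hmz : (m : ℤ) ≠ 0 := by
        have : m ≠ 0 := by omega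
        exact_mod_cast this
      have h6 : (q'.1 : ℤ) = q.1 := mul_left_cancel₀ hmz h2
      have h7 : q'.1 = q.1 := by exact_mod_cast h6
      exact (Sigma.ext h7 (heq_of_eq h4)).symm
  -- the count
  have hsum : (P.card : ℝ) * (a / 2 * (X : ℝ) ^ (n - 1)) ≤ ((P.sigma Y).card : ℝ) := by
    rw [Finset.card_sigma]
    push_cast
    rw [← nsmul_eq_mul]
    exact Finset.card_nsmul_le_sum _ _ _ hYc
  have hXn : (X : ℝ) * (X : ℝ) ^ (n - 1) = (X : ℝ) ^ n := by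
    rw [← pow_succ']
    congr 1
    omega
  have hmain : c * a / 2 * ((X : ℝ) ^ n / Real.log X) ≤ ((P.sigma Y).card : ℝ) := by
    refine le_trans ?_ hsum
    calc c * a / 2 * ((X : ℝ) ^ n / Real.log X) =
          c * X / Real.log X * (a / 2 * (X : ℝ) ^ (n - 1)) := by
          rw [← hXn]
          ring
      _ ≤ (P.card : ℝ) * (a / 2 * (X : ℝ) ^ (n - 1)) :=
          mul_le_mul_of_nonneg_right hPc (by positivity)
  -- the bad points
  have hBc : (B.card : ℝ) ≤ c * a / 4 * ((X : ℝ) ^ n / Real.log X) := by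
    have h1 := hBDI (n + 2) (K₁ * (K * X)) D
    rw [← hB] at h1
    have h2 : (B.card : ℝ) ≤ ((n : ℝ) + 2) * (2 * ((K₁ : ℝ) * (K * X)) ^ 2 *
        (9 * (D : ℝ)) ^ (n + 1)) := by exact_mod_cast h1
    have h3 : (9 * (D : ℝ)) ^ (n + 1) ≤ (9 * Real.log X ^ 3) ^ (n + 1) :=
      pow_le_pow_left₀ (by positivity) (mul_le_mul_of_nonneg_left hD (by norm_num)) _
    have h4 : (B.card : ℝ) ≤ Γ * ((X : ℝ) ^ 2 * Real.log X ^ (3 * (n + 1))) := by
      refine h2.trans ?_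
      calc ((n : ℝ) + 2) * (2 * ((K₁ : ℝ) * (K * X)) ^ 2 * (9 * (D : ℝ)) ^ (n + 1))
          ≤ ((n : ℝ) + 2) * (2 * ((K₁ : ℝ) * (K * X)) ^ 2 * (9 * Real.log X ^ 3) ^ (n + 1)) := by
            gcongr
        _ = Γ * ((X : ℝ) ^ 2 * Real.log X ^ (3 * (n + 1))) := by
            rw [hΓ, mul_pow 9, ← pow_mul]
            ring
    refine h4.trans ?_
    rw [← mul_div_assoc, le_div_iff₀ hlog]
    have h5 := hX2 X x2
    have h6 : Γ * (Real.log X ^ (3 * (n + 1) + 1)) ≤ c * a / 4 * X := by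
      have h7 : Γ * (c * a / 4 / (Γ + 1)) ≤ c * a / 4 := by
        rw [← mul_div_assoc, div_le_iff₀ (by linarith)]
        have : 0 ≤ c * a / 4 := by positivity
        nlinarith
      calc Γ * (Real.log X ^ (3 * (n + 1) + 1)) ≤ Γ * (c * a / 4 / (Γ + 1) * X) :=
            mul_le_mul_of_nonneg_left h5 hΓ0
        _ = Γ * (c * a / 4 / (Γ + 1)) * X := by ring
        _ ≤ c * a / 4 * X := mul_le_mul_of_nonneg_right h7 hX0.le
    calc Γ * ((X : ℝ) ^ 2 * Real.log X ^ (3 * (n + 1))) * Real.log X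
        = Γ * (Real.log X ^ (3 * (n + 1) + 1)) * (X : ℝ) ^ 2 := by ring
      _ ≤ c * a / 4 * X * (X : ℝ) ^ 2 := mul_le_mul_of_nonneg_right h6 (by positivity)
      _ = c * a / 4 * (X : ℝ) ^ 3 := by ring
      _ ≤ c * a / 4 * (X : ℝ) ^ n :=
          mul_le_mul_of_nonneg_left (pow_le_pow_right₀ hX1r (by omega)) (by positivity)
  have hcr : ((P.sigma Y).card : ℝ) ≤ (G.card : ℝ) + B.card := by exact_mod_cast hcard
  have hGc : c * a / 4 * ((X : ℝ) ^ n / Real.log X) ≤ (G.card : ℝ) := by linarith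
  rw [← hG]
  refine le_trans ?_ hGc
  have hfin : min (M * c₂) (c * c₂ * η / (4 * M)) * δ / W ≤ c * a / 4 := by
    calc min (M * c₂) (c * c₂ * η / (4 * M)) * δ / W ≤ c * c₂ * η / (4 * M) * δ / W := by
          gcongr
          exact min_le_right _ _
      _ = c * a / 4 := by
          rw [ha, hδh]
          field_simp
  have hpos : 0 ≤ (X : ℝ) ^ n / Real.log X := by positivity
  calc min (M * c₂) (c * c₂ * η / (4 * M)) * δ * (X : ℝ) ^ n / (W * Real.log X)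
      = min (M * c₂) (c * c₂ * η / (4 * M)) * δ / W * ((X : ℝ) ^ n / Real.log X) := by
        rw [mul_div_assoc, div_mul_eq_div_div, ← mul_div_assoc]
        ring
    _ ≤ c * a / 4 * ((X : ℝ) ^ n / Real.log X) := mul_le_mul_of_nonneg_right hfin hpos

end Pool.Agent.H40.HFQ
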